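import Pool.Agent.N422.NWS.Stm
import Pool.Agent.N422.WS.W

/-! Project NWS (helper422, helper136), part HITS (helper506): the number of hits. -/

set_option autoImplicit false

open Finset

namespace Pool.Agent.U506.NWS

open Pool.Agent.N422.NW Pool.Agent.N422.NWS Pool.Agent.N422.WS

/-- the local law -/
def m1 {K : Type} [Field K] {k : ℕ} (u : K) : Option (Fin k) → K
  | some _ => u
  | none => 1 - (k : K) * u

/-- the direction of the local kernel -/
def bl {K : Type} [Field K] {k : ℕ} (u : K) (c c' : Option (Fin k)) : K :=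
  if c = none then 0 else m1 u c' - (if c' = c then 1 else 0)

/-- the local kernel: a hit is resampled with rate `th` -/
def kl {K : Type} [Field K] {k : ℕ} (th u : K) (c c' : Option (Fin k)) : K :=
  (if c' = c then 1 else 0) + th * bl u c c'

/-- the local density -/
noncomputable def fl {k : ℕ} (th u : ℝ) (c : Option (Fin k)) : ℝ :=
  (if c = none then 1 - th else 1) / (1 - th + th * (k * u))

lemma m1_sum {K : Type} [Field K] {k : ℕ} (u : K) : ∑ c : Option (Fin k), m1 u c = 1 := by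
  rw [Fintype.sum_option]
  simp [m1]

lemma bl_sum {K : Type} [Field K] {k : ℕ} (u : K) (c : Option (Fin k)) :
    ∑ c' : Option (Fin k), bl u c c' = 0 := by
  unfold bl
  split_ifs
  · simp
  · rw [sum_sub_distrib, m1_sum]
    simp

lemma m1_eq {k : ℕ} (u : ℝ) (c : Option (Fin k)) : mu1u u c = m1 u c := by
  cases c <;> rfl

lemma kl_cast {k : ℕ} (th u : ℝ) (c c' : Option (Fin k)) :
    kl (th : ℂ) (u : ℂ) c c' = ((kl th u c c' : ℝ) : ℂ) := by
  unfold kl bl
  cases c' <;> (unfold m1; split_ifs <;> push_cast <;> ring)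

lemma kl_nonneg {k : ℕ} {th u : ℝ} (h0 : 0 ≤ th) (h1 : th ≤ 1 / 2) (hu : 0 ≤ u) (hk : k * u ≤ 1)
    (c c' : Option (Fin k)) : 0 ≤ kl th u c c' := by
  have hm : 0 ≤ m1 u c' := by
    cases c' with
    | none => simp only [m1]; linarith
    | some a => simpa only [m1] using hu
  unfold kl bl
  split_ifs
  · linarith
  · nlinarith
  · linarith
  · nlinarith

/-- the adjoint of the local kernel -/
lemma adj {k : ℕ} {th u : ℝ} (h0 : 0 ≤ th) (h1 : th ≤ 1 / 2) (hu : 0 ≤ u) (c' : Option (Fin k)) :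
    ∑ c, mu1u u c * fl th u c * kl th u c c' = mu1u u c' := by
  have hk : (0 : ℝ) ≤ k * u := by positivity
  have hD : 0 < 1 - th + th * (k * u) := by nlinarith
  rw [Fintype.sum_option]
  have e1 : ∀ a : Fin k, mu1u u (some a) * fl th u (some a) * kl th u (some a) c' =
      u / (1 - th + th * (k * u)) * ((1 - th) * (if c' = some a then 1 else 0) + th * m1 u c') := by
    intro a
    simp only [mu1u, fl, kl, bl, reduceCtorEq, if_false]
    ring
  have e2 : mu1u u (none : Option (Fin k)) * fl th u (none : Option (Fin k)) *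
      kl th u (none : Option (Fin k)) c' =
      (1 - k * u) * ((1 - th) / (1 - th + th * (k * u))) * (if c' = none then 1 else 0) := by
    simp only [mu1u, fl, kl, bl, if_true]
    ring
  rw [sum_congr rfl fun a _ => e1 a, e2, ← mul_sum, sum_add_distrib, ← mul_sum]
  cases c' with
  | none =>
    simp only [reduceCtorEq, if_false, if_true, sum_const_zero, mul_zero, zero_add, sum_const,
      card_univ, Fintype.card_fin, nsmul_eq_mul, m1, mu1u, mul_one]
    field_simp
    have h2 : 1 - th + k * u * th ≠ 0 := by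
      have : 1 - th + k * u * th = 1 - th + th * (k * u) := by ring
      rw [this]
      exact hD.ne'
    exact mul_div_cancel_right₀ _ h2
  | some b =>
    have e3 : ∑ a : Fin k, (if (some b : Option (Fin k)) = some a then (1 : ℝ) else 0) = 1 := by
      simp
    rw [e3]
    simp only [reduceCtorEq, if_false, mul_zero, zero_add, sum_const,
      card_univ, Fintype.card_fin, nsmul_eq_mul, m1, mu1u, mul_one]
    field_simp
    have h2 : 1 - th + u * th * k ≠ 0 := by
      have : 1 - th + u * th * k = 1 - th + th * (k * u) := by ring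
      rw [this]
      exact hD.ne'
    exact mul_div_cancel_right₀ _ h2

/-- a function with mean value `0` in a coordinate on which the rest does not depend -/
lemma sum_zero {N : ℕ} {α : Type} [Fintype α] [DecidableEq α] (i : Fin N) (b : α → ℂ)
    (hb : ∑ c, b c = 0) (R : (Fin N → α) → ℂ)
    (hR : ∀ γ γ' : Fin N → α, (∀ j, j ≠ i → γ j = γ' j) → R γ = R γ') :
    ∑ γ : Fin N → α, b (γ i) * R γ = 0 := by
  rw [← (Equiv.piSplitAt i (fun _ => α)).symm.sum_comp, Fintype.sum_prod_type_right]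
  refine sum_eq_zero fun r _ => ?_
  rcases isEmpty_or_nonempty α with h | ⟨⟨c0⟩⟩
  · simp
  · have e : ∀ c, b ((Equiv.piSplitAt i (fun _ => α)).symm (c, r) i) *
        R ((Equiv.piSplitAt i (fun _ => α)).symm (c, r)) =
        b c * R ((Equiv.piSplitAt i (fun _ => α)).symm (c0, r)) := by
      intro c
      congr 1
      · simp [Equiv.piSplitAt]
      · apply hR
        intro j hj
        simp [Equiv.piSplitAt, hj]
    rw [sum_congr rfl fun c _ => e c, ← sum_mul, hb, zero_mul]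

/-- the kernel of a product with a function of few coordinates -/
lemma expand {N k : ℕ} (th : Fin N → ℂ) (A B : Fin N → Option (Fin k) → ℂ)
    (hB : ∀ i, ∑ c, B i c = 0) (S : Finset (Fin N)) (g : St N k → ℝ)
    (hg : ∀ γ γ', (∀ i ∈ S, γ i = γ' i) → g γ = g γ') :
    ∑ γ' : St N k, (∏ i, (A i (γ' i) + th i * B i (γ' i))) * (g γ' : ℂ) =
      ∑ U ∈ S.powerset, (∏ i ∈ U, th i) *
        ∑ γ' : St N k, (∏ i ∈ U, B i (γ' i)) * (∏ i ∈ univ \ U, A i (γ' i)) * (g γ' : ℂ) := by
  have e1 : ∀ γ' : St N k, (∏ i, (A i (γ' i) + th i * B i (γ' i))) * (g γ' : ℂ) =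
      ∑ U ∈ (univ : Finset (Fin N)).powerset, (∏ i ∈ U, th i) *
        ((∏ i ∈ U, B i (γ' i)) * (∏ i ∈ univ \ U, A i (γ' i)) * (g γ' : ℂ)) := by
    intro γ'
    have e2 : ∀ i, A i (γ' i) + th i * B i (γ' i) = th i * B i (γ' i) + A i (γ' i) :=
      fun i => add_comm _ _
    rw [prod_congr rfl fun i _ => e2 i, prod_add, sum_mul]
    refine sum_congr rfl fun U _ => ?_
    rw [prod_mul_distrib]
    ring
  rw [sum_congr rfl fun γ' _ => e1 γ', sum_comm]
  simp only [← mul_sum]
  symm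
  refine sum_subset (powerset_mono.2 (subset_univ S)) fun U _ hU => ?_
  rw [mem_powerset] at hU
  obtain ⟨i, hi, hiS⟩ := not_subset.1 hU
  have e3 : ∑ γ' : St N k, (∏ i ∈ U, B i (γ' i)) * (∏ i ∈ univ \ U, A i (γ' i)) * (g γ' : ℂ) = 0 := by
    have e4 : ∀ γ' : St N k, (∏ i ∈ U, B i (γ' i)) * (∏ i ∈ univ \ U, A i (γ' i)) * (g γ' : ℂ) =
        B i (γ' i) * ((∏ j ∈ U.erase i, B j (γ' j)) * (∏ j ∈ univ \ U, A j (γ' j)) * (g γ' : ℂ)) := by
      intro γ'
      rw [← mul_prod_erase U (fun i => B i (γ' i)) hi]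
      ring
    rw [sum_congr rfl fun γ' _ => e4 γ']
    refine sum_zero i (B i) (hB i) _ fun γ γ' h => ?_
    congr 1
    · congr 1
      · refine prod_congr rfl fun j hj => ?_
        rw [h j (ne_of_mem_erase hj)]
      · refine prod_congr rfl fun j hj => ?_
        rw [h j]
        rintro rfl
        exact (mem_sdiff.1 hj).2 hi
    · rw [hg γ γ' fun j hj => h j (by rintro rfl; exact hiS hj)]
  rw [e3, mul_zero]

/-- the kernel gives polynomials -/
lemma poly {N k n : ℕ} (ν : Fin N → ℕ) (f : St N k → ℝ) (hf : Lev ν n f) (th : ℂ → Fin N → ℂ)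
    (hth : ∀ i, ∃ P : Polynomial ℂ, ∀ z : ℂ, z ≠ 0 → P.eval z = z ^ (ν i) * th z i)
    (A B : Fin N → Option (Fin k) → ℂ) (hB : ∀ i, ∑ c, B i c = 0) :
    ∃ P : Polynomial ℂ, ∀ z : ℂ, z ≠ 0 →
      P.eval z = z ^ n * ∑ γ' : St N k, (∏ i, (A i (γ' i) + th z i * B i (γ' i))) * (f γ' : ℂ) := by
  obtain ⟨m, S, g, hS, hg, hfg⟩ := hf
  choose P hP using hth
  refine ⟨∑ x, ∑ U ∈ (S x).powerset, Polynomial.C (∑ γ' : St N k, (∏ i ∈ U, B i (γ' i)) *
    (∏ i ∈ univ \ U, A i (γ' i)) * (g x γ' : ℂ)) * Polynomial.X ^ (n - ∑ i ∈ U, ν i) * ∏ i ∈ U, P i,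
    fun z hz => ?_⟩
  have e1 : ∀ γ' : St N k, (∏ i, (A i (γ' i) + th z i * B i (γ' i))) * (f γ' : ℂ) =
      ∑ x, (∏ i, (A i (γ' i) + th z i * B i (γ' i))) * (g x γ' : ℂ) := by
    intro γ'
    rw [hfg γ']
    push_cast
    rw [mul_sum]
  rw [sum_congr rfl fun γ' _ => e1 γ', sum_comm, mul_sum, Polynomial.eval_finsetSum]
  refine sum_congr rfl fun x _ => ?_
  rw [expand (th z) A B hB (S x) (g x) (hg x), mul_sum, Polynomial.eval_finsetSum]
  refine sum_congr rfl fun U hU => ?_
  rw [mem_powerset] at hU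
  have hUn : ∑ i ∈ U, ν i ≤ n := (sum_le_sum_of_subset hU).trans (hS x)
  rw [Polynomial.eval_mul, Polynomial.eval_mul, Polynomial.eval_C, Polynomial.eval_pow,
    Polynomial.eval_X, Polynomial.eval_prod]
  have e2 : ∏ i ∈ U, (P i).eval z = z ^ (∑ i ∈ U, ν i) * ∏ i ∈ U, th z i := by
    rw [← prod_pow_eq_pow_sum, ← prod_mul_distrib]
    exact prod_congr rfl fun i _ => hP i z hz
  rw [e2]
  have e3 : z ^ n = z ^ (n - ∑ i ∈ U, ν i) * z ^ (∑ i ∈ U, ν i) := by
    rw [← pow_add, Nat.sub_add_cancel hUn]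
  rw [e3]
  ring

/-- the logarithm of the local density -/
lemma log_fl {k : ℕ} {th u : ℝ} (h0 : 0 ≤ th) (h1 : th ≤ 1 / 2) (hu : 0 ≤ u)
    (c : Option (Fin k)) : th * ((if c = none then 0 else 1) - 2 * (k * u)) ≤ Real.log (fl th u c) := by
  have hk0 : (0 : ℝ) ≤ k * u := by positivity
  have hD : 0 < 1 - th + th * (k * u) := by nlinarith
  unfold fl
  have h2 := Real.log_le_sub_one_of_pos hD
  split_ifs with h
  · rw [Real.log_div (by linarith) hD.ne']
    have h3 : 0 < (1 - th + th * (k * u)) / (1 - th) := div_pos hD (by linarith)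
    have h4 := Real.log_le_sub_one_of_pos h3
    rw [Real.log_div hD.ne' (by linarith)] at h4
    have h5 : (1 - th + th * (k * u)) / (1 - th) - 1 ≤ 2 * (th * (k * u)) := by
      have h6 : (1 - th + th * (k * u)) / (1 - th) - 1 = th * (k * u) / (1 - th) := by
        have : (1 - th) ≠ 0 := by linarith
        field_simp
        ring
      rw [h6, div_le_iff₀ (by linarith)]
      have : 0 ≤ th * (k * u) := by positivity
      nlinarith
    linarith
  · rw [one_div, Real.log_inv]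
    have : 0 ≤ th * (k * u) := by positivity
    linarith

lemma fl_pos {k : ℕ} {th u : ℝ} (h0 : 0 ≤ th) (h1 : th ≤ 1 / 2) (hu : 0 ≤ u)
    (c : Option (Fin k)) : 0 < fl th u c := by
  have hk0 : (0 : ℝ) ≤ k * u := by positivity
  unfold fl
  apply div_pos
  · split_ifs <;> linarith
  · nlinarith

/-- the numbers -/
lemma num {x : ℝ} (h0 : 0 ≤ x) (h1 : x ≤ 1) : x / 6 ≤ Real.sinh x / (2 * (Real.cosh x + 1)) ∧
    Real.sinh x / (2 * (Real.cosh x + 1)) ≤ 3 * x / 8 := by
  have hs := Real.self_le_sinh_iff.2 h0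
  have hc := Real.one_le_cosh x
  have he : Real.exp x ≤ Real.exp 1 := Real.exp_le_exp.2 h1
  have he1 := Real.exp_one_lt_d9
  have he2 : Real.exp (-x) ≤ 1 := Real.exp_le_one_iff.2 (by linarith)
  have he3 : -x + 1 ≤ Real.exp (-x) := Real.add_one_le_exp (-x)
  have he4 : Real.exp x ≤ 1 + x + x ^ 2 := by
    have h2 := Real.abs_exp_sub_one_sub_id_le (x := x) (by rw [abs_of_nonneg h0]; exact h1)
    have h3 := (abs_le.1 h2).2
    linarith
  have hc2 : Real.cosh x ≤ 2 := by
    rw [Real.cosh_eq]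
    linarith
  have hs2 : Real.sinh x ≤ 3 / 2 * x := by
    rw [Real.sinh_eq]
    nlinarith
  have hp : 0 < 2 * (Real.cosh x + 1) := by linarith
  constructor
  · rw [div_le_div_iff₀ (by norm_num) hp]
    nlinarith
  · rw [div_le_iff₀ hp]
    nlinarith

/-- **The number of hits** (package HITS). -/
theorem t_HITS (hG : S_GEN) (hA : S_AV) : S_HITS := by
  intro N k n u ν f hn hν hu hf hL
  have hnr : (0 : ℝ) < n := by exact_mod_cast hn
  obtain ⟨t, ht⟩ : ∃ t : ℝ, t = 1 / n := ⟨_, rfl⟩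
  have ht0 : 0 < t := by rw [ht]; positivity
  have hu0 : ∀ i, 0 ≤ u i := fun i => (hu i).1
  have hku : ∀ i, (k : ℝ) * u i ≤ 1 := fun i => by
    have h1 := (hu i).2
    have h2 : 0 ≤ (k : ℝ) * u i := mul_nonneg (Nat.cast_nonneg k) (hu0 i)
    linarith
  have hm0 : ∀ i (c : Option (Fin k)), 0 ≤ mu1u (u i) c := by
    intro i c
    cases c with
    | none => simp only [mu1u]; linarith [hku i]
    | some a => exact hu0 i
  have hμ : ∀ γ : St N k, 0 ≤ muU u γ := fun γ => prod_nonneg fun i _ => hm0 i _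
  have hWw : S_W := t_W hA
  have hth : ∀ z : ℂ, ‖z‖ = 1 → ∀ i, thc t (ν i) z = (thr t (ν i) z : ℂ) ∧ 0 ≤ thr t (ν i) z ∧
      thr t (ν i) z ≤ 1 / 2 := fun z hz i => (hWw (ν i) t ht0).1 z hz
  -- the averages
  obtain ⟨W, hW⟩ : ∃ W : Fin N → ℝ, W = fun i =>
      Real.sinh (ν i * t) / (2 * (Real.cosh (ν i * t) + 1)) := ⟨_, rfl⟩
  have hWa : ∀ i, Real.circleAverage (fun w => thr t (ν i) (psi (Real.exp (-t)) w)) 0 1 = W i := by
    intro i
    have h1 : (fun w => thr t (ν i) (psi (Real.exp (-t)) w)) =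
        fun w => 1 / (2 * (Real.cosh (ν i * t) + 1)) *
          (Real.cosh (ν i * t) - ((psi (Real.exp (-t)) w) ^ (ν i)).re) := by
      funext w
      unfold thr
      ring
    rw [h1, W_smul, (hA (ν i) t ht0).2.2.1, hW]
    ring
  have hx : ∀ i, 0 ≤ (ν i : ℝ) * t ∧ (ν i : ℝ) * t ≤ 1 := by
    intro i
    have h1 : (ν i : ℝ) ≤ n := by exact_mod_cast hν i
    refine ⟨by positivity, ?_⟩
    rw [ht, mul_one_div, div_le_one hnr]
    exact h1
  have hWn : ∀ i, (ν i : ℝ) * t / 6 ≤ W i ∧ W i ≤ 3 * ((ν i : ℝ) * t) / 8 := by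
    intro i
    rw [hW]
    exact num (hx i).1 (hx i).2
  -- the general inequality
  have hgen := hG N k n (muU u) f t
    (fun z γ γ' => ∏ i, kl (thc t (ν i) z) ((u i : ℝ) : ℂ) (γ i) (γ' i))
    (fun z γ => ∏ i, fl (thr t (ν i) z) (u i) (γ i)) (fun _ => 0)
    (fun γ => ∑ i, W i * ((if γ i = none then 0 else 1) - 2 * (k * u i)))
    hμ hf ht0 ?_ ?_ ?_ ?_
  rotate_left
  · intro γ γ'
    have h1 : ∀ i, thc t (ν i) ((Real.exp (-t) : ℝ) : ℂ) = 0 := fun i => (hWw (ν i) t ht0).2.1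
    simp only [h1, kl, zero_mul, add_zero]
    split_ifs with h
    · subst h
      simp
    · obtain ⟨i, hi⟩ := Function.ne_iff.1 h
      exact prod_eq_zero (mem_univ i) (if_neg hi)
  · intro γ
    exact poly ν f hL (fun z i => thc t (ν i) z) (fun i => (hWw (ν i) t ht0).2.2.1)
      (fun i c => if c = γ i then 1 else 0) (fun i c => bl ((u i : ℝ) : ℂ) (γ i) c)
      (fun i => bl_sum _ _)
  · intro z hz
    have hz' := hth z hz
    refine ⟨fun γ => prod_pos fun i _ => fl_pos (hz' i).2.1 (hz' i).2.2 (hu0 i) _, fun γ' => ?_⟩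
    rw [add_zero, one_mul]
    refine le_of_eq ?_
    have e1 : ∀ γ : St N k, muU u γ * (∏ i, fl (thr t (ν i) z) (u i) (γ i)) *
        ‖∏ i, kl (thc t (ν i) z) ((u i : ℝ) : ℂ) (γ i) (γ' i)‖ =
        ∏ i, (mu1u (u i) (γ i) * fl (thr t (ν i) z) (u i) (γ i) *
          kl (thr t (ν i) z) (u i) (γ i) (γ' i)) := by
      intro γ
      have e2 : ∏ i, kl (thc t (ν i) z) ((u i : ℝ) : ℂ) (γ i) (γ' i) =
          ((∏ i, kl (thr t (ν i) z) (u i) (γ i) (γ' i) : ℝ) : ℂ) := by
        push_cast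
        refine prod_congr rfl fun i _ => ?_
        rw [(hz' i).1, kl_cast]
      rw [e2, Complex.norm_real, Real.norm_eq_abs, abs_of_nonneg
        (prod_nonneg fun i _ => kl_nonneg (hz' i).2.1 (hz' i).2.2 (hu0 i) (hku i) _ _)]
      unfold muU
      rw [← prod_mul_distrib, ← prod_mul_distrib]
    rw [sum_congr rfl fun γ _ => e1 γ]
    have e3 := prod_univ_sum (fun _ : Fin N => (univ : Finset (Option (Fin k))))
      (fun i c => mu1u (u i) c * fl (thr t (ν i) z) (u i) c * kl (thr t (ν i) z) (u i) c (γ' i))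
    rw [Fintype.piFinset_univ] at e3
    rw [← e3]
    unfold muU
    exact prod_congr rfl fun i _ => adj (hz' i).2.1 (hz' i).2.2 (hu0 i) (γ' i)
  · intro γ
    have hnorm : ∀ θ : ℝ, ‖circleMap 0 1 θ‖ = 1 := fun θ => by simp
    have hps : ∀ w : ℂ, ‖w‖ = 1 → ‖psi (Real.exp (-t)) w‖ = 1 := (hA 0 t ht0).1
    have hcps : Continuous (fun θ : ℝ => psi (Real.exp (-t)) (circleMap 0 1 θ)) := (hA 0 t ht0).2.1
    have hTc : ∀ i, Continuous fun θ : ℝ => thr t (ν i) (psi (Real.exp (-t)) (circleMap 0 1 θ)) := by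
      intro i
      unfold thr
      exact (continuous_const.sub (Complex.continuous_re.comp (hcps.pow _))).div_const _
    have hflc : ∀ i, Continuous fun θ : ℝ =>
        fl (thr t (ν i) (psi (Real.exp (-t)) (circleMap 0 1 θ))) (u i) (γ i) := by
      intro i
      unfold fl
      refine Continuous.div ?_ ?_ fun θ => ?_
      · split_ifs
        · exact continuous_const.sub (hTc i)
        · exact continuous_const
      · exact (continuous_const.sub (hTc i)).add ((hTc i).mul continuous_const)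
      · have h1 := hth _ (hps _ (hnorm θ)) i
        have h2 : 0 ≤ (k : ℝ) * u i := mul_nonneg (Nat.cast_nonneg k) (hu0 i)
        have h3 := mul_nonneg h1.2.1 h2
        have h4 := h1.2.2
        have h5 : 0 < 1 - thr t (ν i) (psi (Real.exp (-t)) (circleMap 0 1 θ)) +
          thr t (ν i) (psi (Real.exp (-t)) (circleMap 0 1 θ)) * (k * u i) := by linarith
        exact h5.ne'
    have hpos : ∀ θ : ℝ, 0 < ∏ i, fl (thr t (ν i) (psi (Real.exp (-t)) (circleMap 0 1 θ))) (u i) (γ i) :=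
      fun θ => prod_pos fun i _ => fl_pos (hth _ (hps _ (hnorm θ)) i).2.1
        (hth _ (hps _ (hnorm θ)) i).2.2 (hu0 i) _
    have hint : CircleIntegrable (fun w => Real.log (∏ i, fl (thr t (ν i) (psi (Real.exp (-t)) w))
        (u i) (γ i))) 0 1 := by
      apply W_int
      exact Continuous.log (continuous_finsetProd _ fun i _ => hflc i) fun θ => (hpos θ).ne'
    refine ⟨hint, ?_⟩
    have hlow : CircleIntegrable (fun w => ∑ i, thr t (ν i) (psi (Real.exp (-t)) w) *
        ((if γ i = none then 0 else 1) - 2 * (k * u i))) 0 1 := by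
      apply W_int
      exact continuous_finsetSum _ fun i _ => (hTc i).mul continuous_const
    have hmono := Real.circleAverage_mono hlow hint fun w hw => by
      have hw' := hps w (W_sph hw)
      have hw2 := hth _ hw'
      show _ ≤ Real.log (∏ i, fl (thr t (ν i) (psi (Real.exp (-t)) w)) (u i) (γ i))
      rw [Real.log_prod fun i _ => (fl_pos (hw2 i).2.1 (hw2 i).2.2 (hu0 i) _).ne']
      exact sum_le_sum fun i _ => log_fl (hw2 i).2.1 (hw2 i).2.2 (hu0 i) _
    refine le_trans (le_of_eq ?_) hmono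
    have hTi : ∀ i, CircleIntegrable (fun w => thr t (ν i) (psi (Real.exp (-t)) w)) 0 1 :=
      fun i => W_int (hTc i)
    have e1 : ∀ i, W i * ((if γ i = none then 0 else 1) - 2 * (k * u i)) =
        Real.circleAverage (fun w => thr t (ν i) (psi (Real.exp (-t)) w) *
          ((if γ i = none then 0 else 1) - 2 * (k * u i))) 0 1 := by
      intro i
      rw [← hWa i, mul_comm, ← W_smul]
      congr 1
      funext w
      ring
    rw [sum_congr rfl fun i _ => e1 i]
    symm
    apply Real.circleAverage_fun_sum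
    intro i _
    apply W_int
    exact (hTc i).mul continuous_const
  -- the end
  simp only [mul_zero, sum_const_zero, add_zero] at hgen
  have hnt : (n : ℝ) * t = 1 := by rw [ht]; field_simp
  rw [hnt, one_mul] at hgen
  have hF : 0 ≤ ∑ γ, muU u γ * f γ := sum_nonneg fun γ _ => mul_nonneg (hμ γ) (hf γ)
  have hsu : 0 ≤ ∑ i, u i := sum_nonneg fun i _ => hu0 i
  have hlow : ∀ γ : St N k, t / 6 * (∑ i, if γ i = none then 0 else (ν i : ℝ)) - 3 / 4 * (k * ∑ i, u i) ≤
      ∑ i, W i * ((if γ i = none then 0 else 1) - 2 * (k * u i)) := by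
    intro γ
    rw [mul_sum, mul_sum, mul_sum, ← sum_sub_distrib]
    refine sum_le_sum fun i _ => ?_
    have h1 := (hWn i).1
    have h2 := (hWn i).2
    have h3 := (hx i).2
    have h4 : 0 ≤ (k : ℝ) * u i := mul_nonneg (Nat.cast_nonneg k) (hu0 i)
    have h5 : W i * (2 * (k * u i)) ≤ 3 / 4 * (k * u i) := by nlinarith
    split_ifs
    · linarith
    · linarith
  have hfin : ∑ γ, muU u γ * f γ * (t / 6 * (∑ i, if γ i = none then 0 else (ν i : ℝ)) -
      3 / 4 * (k * ∑ i, u i)) ≤ ∑ γ, muU u γ * f γ :=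
    le_trans (sum_le_sum fun γ _ => mul_le_mul_of_nonneg_left (hlow γ)
      (mul_nonneg (hμ γ) (hf γ))) hgen
  have e5 : ∑ γ, muU u γ * f γ * (t / 6 * (∑ i, if γ i = none then 0 else (ν i : ℝ)) -
      3 / 4 * (k * ∑ i, u i)) =
      t / 6 * ∑ γ, muU u γ * f γ * (∑ i, if γ i = none then 0 else (ν i : ℝ)) -
        3 / 4 * (k * ∑ i, u i) * ∑ γ, muU u γ * f γ := by
    generalize (∑ i, u i) = sg
    rw [mul_sum, mul_sum, ← sum_sub_distrib]
    refine sum_congr rfl fun γ _ => ?_
    ring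
  rw [e5] at hfin
  have hkF : 0 ≤ (k : ℝ) * (∑ i, u i) * ∑ γ, muU u γ * f γ := by positivity
  have e6 : t / 6 * ∑ γ, muU u γ * f γ * (∑ i, if γ i = none then 0 else (ν i : ℝ)) ≤
      (1 + 3 / 4 * (k * ∑ i, u i)) * ∑ γ, muU u γ * f γ := by linarith
  have e7 : ∑ γ, muU u γ * f γ * (∑ i, if γ i = none then 0 else (ν i : ℝ)) =
      6 * n * (t / 6 * ∑ γ, muU u γ * f γ * (∑ i, if γ i = none then 0 else (ν i : ℝ))) := by
    have : 6 * (n : ℝ) * (t / 6) = 1 := by linarith
    rw [← mul_assoc, this, one_mul]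
  rw [e7]
  have e8 := mul_le_mul_of_nonneg_left e6 (show (0 : ℝ) ≤ 6 * n by positivity)
  refine e8.trans ?_
  have e9 : 0 ≤ (n : ℝ) * ((k : ℝ) * (∑ i, u i) * ∑ γ, muU u γ * f γ) := by positivity
  nlinarith

end Pool.Agent.U506.NWS
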